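import Pool.Agent.Helper64.Trs.IndA

/-!
# Modules `Pairs`: S_Pair, S_AddPair
-/

namespace Trs

open MvPolynomial

namespace H64

variable {n : ℕ}

lemma exists_support {g : Rg n} (hg0 : g ≠ 0) : ∃ β, β ∈ g.support := by
  by_contra hcon
  push Not at hcon
  exact hg0 (support_eq_empty.mp (Finset.eq_empty_of_forall_notMem hcon))

/-- if the exponents of `x_j` agree, then `x_j^k` can be factored out -/
lemma not_ind_of_const (tor : Fin n → Bool) (p : Ideal (Rg n)) (hp : p.IsPrime)
    (hle : p ≤ RingHom.ker (ev tor 0)) (i j : Fin n) (hj : tor j = true)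
    (g : Rg n) (hgp : g ∈ p) (hg0 : g ≠ 0) (hgA : ∀ α ∈ g.support, α.support ⊆ {i, j})
    (β : Fin n →₀ ℕ) (h : ∀ α ∈ g.support, α j = β j) : ¬ Ind p {i} := by
  classical
  refine factor tor p hp hle (Finsupp.single j (β j)) ?_ {i} g hgp hg0 ?_
  · intro k hk
    by_cases hkj : k = j
    · rw [hkj]; exact hj
    · exact absurd (Finsupp.single_eq_of_ne hkj) hk
  · intro α hα
    constructor
    · rw [Finsupp.single_le_iff, h α hα]
    · intro k hk
      rw [Finsupp.mem_support_iff, Finsupp.tsub_apply] at hk
      have hks : k ∈ α.support := by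
        rw [Finsupp.mem_support_iff]
        omega
      have hkj : k ≠ j := by
        rintro rfl
        rw [Finsupp.single_eq_same, h α hα] at hk
        omega
      have := hgA α hα hks
      rw [Finset.mem_insert, Finset.mem_singleton] at this
      rw [Finset.mem_singleton]
      exact this.resolve_right hkj

/-- the sum over the coordinates -/
lemma sum_pair (α : Fin n →₀ ℕ) (v : Fin n → ℂ) (i j : Fin n) (hij : i ≠ j)
    (h : α.support ⊆ {i, j}) : ∑ k, (α k : ℂ) * v k = α i * v i + α j * v j := by
  classical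
  rw [← Finset.sum_pair (f := fun k => (α k : ℂ) * v k) hij]
  symm
  apply Finset.sum_subset (Finset.subset_univ _)
  intro k _ hk
  have : k ∉ α.support := fun h' => hk (h h')
  rw [Finsupp.notMem_support_iff.mp this]
  simp

end H64

open H64

theorem pair : S_Pair := by
  classical
  intro n tor p hp hle i j hij hi hj hnot
  unfold Ind at hnot
  push Not at hnot
  obtain ⟨f, hfv, hfp, hf0⟩ := hnot
  obtain ⟨g, hgp, hg0, hgA, hg⟩ := exists_min p (fun α : Fin n →₀ ℕ => α)
    {α | α.support ⊆ {i, j}} f hfp hf0 (support_of_vars hfv)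
  by_cases h1 : ∃ α ∈ g.support, ∃ β ∈ g.support, α i ≠ β i ∧ α j ≠ β j
  · obtain ⟨α, hα, β, hβ, hai, haj⟩ := h1
    refine Or.inr (Or.inr ⟨(α i : ℤ) - β i, (α j : ℤ) - β j, by omega, by omega, ?_⟩)
    intro v hv
    have h2 := hg (tr tor v).toLinearMap (fun α => Complex.exp (∑ k, (α k : ℂ) * v k))
      (fun x hx => (hv x).mp hx)
      (fun γ hγ c => tr_monomial tor v γ c (by
        intro k hk
        left
        have := hγ (Finsupp.mem_support_iff.mpr hk)
        rcases Finset.mem_insert.mp this with rfl | h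
        · exact hi
        · rw [Finset.mem_singleton.mp h]; exact hj))
      (fun γ _ δ _ hgd => by rw [show γ = δ from hgd]) α hα β hβ
    rw [sum_pair α v i j hij (hgA α hα), sum_pair β v i j hij (hgA β hβ)] at h2
    have h3 : (((α i : ℤ) - β i : ℤ) : ℂ) * v i + (((α j : ℤ) - β j : ℤ) : ℂ) * v j
        = ((α i : ℂ) * v i + α j * v j) - (β i * v i + β j * v j) := by
      push_cast; ring
    rw [h3, Complex.exp_sub, h2, div_self (Complex.exp_ne_zero _)]
  · push Not at h1
    obtain ⟨β, hβ⟩ := exists_support hg0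
    by_cases h2 : ∀ α ∈ g.support, α j = β j
    · left
      have h3 := not_ind_of_const tor p hp hle i j hj g hgp hg0 hgA β h2
      have h4 := alg1 n tor p hp hle i h3
      rw [if_pos hi] at h4
      simpa using h4
    · right; left
      push Not at h2
      obtain ⟨α, hα, haj⟩ := h2
      -- all exponents of `x_i` agree
      have hai : α i = β i := by
        by_contra h
        exact haj (h1 α hα β hβ h)
      have h3 : ∀ γ ∈ g.support, γ i = β i := by
        intro γ hγ
        by_contra h
        have h4 := h1 γ hγ β hβ h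
        have h5 := h1 γ hγ α hα (by rw [hai]; exact h)
        exact haj (h5.symm.trans h4)
      have h3 := not_ind_of_const tor p hp hle j i hi g hgp hg0
        (fun γ hγ => by rw [Finset.pair_comm]; exact hgA γ hγ) β h3
      have h4 := alg1 n tor p hp hle j h3
      rw [if_pos hj] at h4
      simpa using h4

theorem addPair : S_AddPair := by
  classical
  intro n tor p hp hle i j hi hj hI hnot
  have hij : i ≠ j := by
    rintro rfl
    rw [hi] at hj
    exact Bool.false_ne_true hj
  unfold Ind at hnot
  push Not at hnot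
  obtain ⟨f, hfv, hfp, hf0⟩ := hnot
  obtain ⟨g, hgp, hg0, hgA, hg⟩ := exists_min p (fun α : Fin n →₀ ℕ => α j)
    {α | α.support ⊆ {i, j}} f hfp hf0 (support_of_vars hfv)
  obtain ⟨β, hβ⟩ := exists_support hg0
  by_cases h2 : ∀ α ∈ g.support, α j = β j
  · exact absurd hI (not_ind_of_const tor p hp hle i j hj g hgp hg0 hgA β h2)
  · push Not at h2
    obtain ⟨α, hα, haj⟩ := h2
    refine ⟨(α j : ℤ) - β j, by omega, ?_⟩
    intro v hvi hv
    have hsum : ∀ γ : Fin n →₀ ℕ, γ.support ⊆ {i, j} → ∑ k, (γ k : ℂ) * v k = γ j * v j := by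
      intro γ hγ
      rw [sum_pair γ v i j hij hγ, hvi, mul_zero, zero_add]
    have h3 := hg (tr tor v).toLinearMap (fun α => Complex.exp (∑ k, (α k : ℂ) * v k))
      (fun x hx => (hv x).mp hx)
      (fun γ hγ c => tr_monomial tor v γ c (by
        intro k hk
        have := hγ (Finsupp.mem_support_iff.mpr hk)
        rcases Finset.mem_insert.mp this with rfl | h
        · exact Or.inr hvi
        · rw [Finset.mem_singleton.mp h]; exact Or.inl hj))
      (fun γ hγ δ hδ hgd => by
        rw [hsum γ hγ, hsum δ hδ, show γ j = δ j from hgd]) α hα β hβ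
    rw [hsum α (hgA α hα), hsum β (hgA β hβ)] at h3
    have h4 : (((α j : ℤ) - β j : ℤ) : ℂ) * v j = (α j : ℂ) * v j - β j * v j := by
      push_cast; ring
    rw [h4, Complex.exp_sub, h3, div_self (Complex.exp_ne_zero _)]

end Trs
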