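import Pool.Agent.Helper64.Trs.Base

/-!
# Modules `Ind`: S_Alg1, S_Del, S_Tor
-/

namespace Trs

open MvPolynomial

namespace H64

variable {n : ℕ}

/-- a polynomial in one variable -/
lemma one_var (i : Fin n) (f : Rg n) (hf : f.vars ⊆ {i}) :
    ∃ F : Polynomial ℂ, Polynomial.aeval (X i : Rg n) F = f := by
  classical
  refine ⟨∑ α ∈ f.support, Polynomial.monomial (α i) (coeff α f), ?_⟩
  rw [map_sum]
  conv_rhs => rw [f.as_sum]
  apply Finset.sum_congr rfl
  intro α hα
  have h1 := support_of_vars hf α hα
  have h2 : α = Finsupp.single i (α i) := by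
    ext j
    by_cases hj : j = i
    · subst hj; simp
    · have : j ∉ α.support := fun h => hj (Finset.mem_singleton.mp (h1 h))
      rw [Finsupp.notMem_support_iff.mp this, Finsupp.single_eq_of_ne hj]
  rw [Polynomial.aeval_monomial, algebraMap_eq, X_pow_eq_monomial, C_mul_monomial, mul_one, ← h2]

end H64

open H64

theorem alg1 : S_Alg1 := by
  classical
  intro n tor p hp hle i hi
  unfold Ind at hi
  push Not at hi
  obtain ⟨f, hfv, hfp, hf0⟩ := hi
  obtain ⟨F, hF⟩ := one_var i f hfv
  -- the contraction to `ℂ[T]`
  have hF0 : F ≠ 0 := by
    rintro rfl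
    rw [map_zero] at hF
    exact hf0 hF.symm
  have hprod := (IsAlgClosed.splits F).eq_prod_roots
  have hmem : Polynomial.aeval (X i : Rg n) F ∈ p := by rw [hF]; exact hfp
  rw [hprod, map_mul, Polynomial.aeval_C, algebraMap_eq] at hmem
  have hC : (C F.leadingCoeff : Rg n) ∉ p := by
    intro h
    have := hle h
    rw [RingHom.mem_ker] at this
    unfold ev at this
    rw [aeval_C] at this
    exact hF0 (Polynomial.leadingCoeff_eq_zero.mp this)
  have h1 := (hp.mem_or_mem hmem).resolve_left hC
  rw [map_multiset_prod, Multiset.map_map] at h1
  obtain ⟨x, hx, hxp⟩ := (hp.multiset_prod_mem_iff_exists_mem _).mp h1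
  obtain ⟨r, _, hr⟩ := Multiset.mem_map.mp hx
  rw [← hr] at hxp
  simp only [Function.comp_apply, map_sub, Polynomial.aeval_X, Polynomial.aeval_C,
    algebraMap_eq] at hxp
  replace hr := hxp
  have h2 := hle hr
  rw [RingHom.mem_ker] at h2
  unfold ev at h2
  rw [map_sub, aeval_X, aeval_C] at h2
  have h3 : r = (if tor i then 1 else 0) := by
    rw [sub_eq_zero] at h2
    simp only [Pi.zero_apply, Complex.exp_zero, Algebra.algebraMap_self, RingHom.id_apply] at h2
    exact h2.symm
  rw [← h3]
  exact hr

theorem del : S_Del := by
  classical
  intro n tor p v hD hv i hi hvi I hI hInd f hfv hfp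
  -- induction on the degree in `x_i`
  have key : ∀ d : ℕ, ∀ f : Rg n, f.degreeOf i ≤ d → f.vars ⊆ insert i I → f ∈ p → f = 0 := by
    intro d
    induction d with
    | zero =>
      intro f hd hfv hfp
      apply hInd f _ hfp
      intro j hj
      rcases Finset.mem_insert.mp (hfv hj) with rfl | h
      · exfalso
        obtain ⟨α, hα, hj'⟩ := (mem_vars_iff_mem_support j).mp hj
        have := monomial_le_degreeOf j hα
        have h0 : α j ≠ 0 := Finsupp.mem_support_iff.mp hj'
        omega
      · exact h
    | succ d ih =>
      intro f hd hfv hfp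
      -- `D f = v_i ∂_i f`
      have hDf : dr tor v f = v i • pderiv i f := by
        conv_lhs => rw [f.as_sum]
        conv_rhs => rw [f.as_sum]
        rw [map_sum, map_sum, Finset.smul_sum]
        apply Finset.sum_congr rfl
        intro α hα
        unfold dr
        rw [mkDerivation_monomial, Finsupp.sum, pderiv_monomial]
        by_cases hai : i ∈ α.support
        · rw [Finset.sum_eq_single i]
          · rw [if_neg (by simp [hi]), smul_eq_mul]
            rw [mul_comm (monomial _ _) (C _), C_mul_monomial, smul_monomial, smul_monomial]
            congr 1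
            rw [smul_eq_mul, smul_eq_mul]
            ring
          · intro j hj hji
            have hjI : j ∈ I := by
              have := support_of_vars hfv α hα hj
              exact (Finset.mem_insert.mp this).resolve_left hji
            rw [hI j hjI]
            simp
          · intro h; exact absurd hai h
        · rw [Finsupp.notMem_support_iff.mp hai]
          rw [Finset.sum_eq_zero]
          · simp
          · intro j hj
            have hjI : j ∈ I := by
              have := support_of_vars hfv α hα hj
              refine (Finset.mem_insert.mp this).resolve_left ?_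
              rintro rfl
              exact hai hj
            rw [hI j hjI]
            simp
      have h1 : pderiv i f ∈ p := by
        have h2 := hD f hfp
        rw [hDf, MvPolynomial.smul_eq_C_mul] at h2
        have h3 : pderiv i f = C (v i)⁻¹ * (C (v i) * pderiv i f) := by
          rw [← mul_assoc, ← C_mul, inv_mul_cancel₀ hvi, C_1, one_mul]
        rw [h3]
        exact p.mul_mem_left _ h2
      have h2 : (pderiv i f).vars ⊆ insert i I := by
        apply vars_of_support
        intro β hβ j hj
        have h3 : coeff β (pderiv i f) ≠ 0 := mem_support_iff.mp hβ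
        rw [coeff_pderiv] at h3
        have h4 : β + Finsupp.single i 1 ∈ f.support := by
          rw [mem_support_iff]
          intro h; exact h3 (by rw [h, zero_mul])
        apply support_of_vars hfv _ h4
        rw [Finsupp.mem_support_iff] at hj ⊢
        rw [Finsupp.add_apply]
        omega
      have h3 : (pderiv i f).degreeOf i ≤ d := by
        rw [degreeOf_le_iff]
        intro β hβ
        have h3 : coeff β (pderiv i f) ≠ 0 := mem_support_iff.mp hβ
        rw [coeff_pderiv] at h3
        have h4 : β + Finsupp.single i 1 ∈ f.support := by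
          rw [mem_support_iff]
          intro h; exact h3 (by rw [h, zero_mul])
        have h5 := monomial_le_degreeOf i h4
        rw [Finsupp.add_apply, Finsupp.single_eq_same] at h5
        omega
      have h4 := ih _ h3 h2 h1
      -- so `f` has degree `0` in `x_i`
      apply hInd f _ hfp
      intro j hj
      rcases Finset.mem_insert.mp (hfv hj) with rfl | h
      · exfalso
        obtain ⟨α, hα, hj'⟩ := (mem_vars_iff_mem_support j).mp hj
        have h0 : α j ≠ 0 := Finsupp.mem_support_iff.mp hj'
        have h5 : coeff (α - Finsupp.single j 1) (pderiv j f) = 0 := by rw [h4, coeff_zero]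
        rw [coeff_pderiv] at h5
        have h6 : α - Finsupp.single j 1 + Finsupp.single j 1 = α := by
          apply tsub_add_cancel_of_le
          rw [Finsupp.single_le_iff]
          exact Nat.one_le_iff_ne_zero.mpr h0
        rw [h6] at h5
        rcases mul_eq_zero.mp h5 with h7 | h7
        · exact (mem_support_iff.mp hα) h7
        · exact (Nat.cast_add_one_ne_zero _) h7
      · exact h
  exact key _ f le_rfl hfv hfp

theorem tor' : S_Tor := by
  classical
  intro n tor p hp hle u hD J hJt hJu hind I hdisj hI f hfv hfp
  by_contra hf0
  -- class = restriction to `J`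
  obtain ⟨g, hgp, hg0, hgA, hg⟩ := exists_min p
    (fun α : Fin n →₀ ℕ => α.filter (fun j => j ∈ J)) {α | α.support ⊆ I ∪ J} f hfp hf0
    (support_of_vars hfv)
  have hmono : ∀ α : Fin n →₀ ℕ, ∀ c, dr tor u (monomial α c) =
      (∑ j, (α j : ℂ) * u j) • monomial α c := by
    intro α c
    apply dr_monomial
    intro j _
    by_cases hj : j ∈ J
    · exact Or.inl (hJt j hj)
    · exact Or.inr (hJu j hj)
  have hsum : ∀ α : Fin n →₀ ℕ, ∑ j, (α j : ℂ) * u j = ∑ j ∈ J, (α j : ℂ) * u j := by
    intro α
    symm
    apply Finset.sum_subset (Finset.subset_univ _)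
    intro j _ hj
    rw [hJu j hj, mul_zero]
  have h1 := hg (dr tor u).toLinearMap (fun α => ∑ j, (α j : ℂ) * u j) hD
    (fun α _ c => hmono α c) (by
      intro α _ β _ hab
      rw [hsum, hsum]
      apply Finset.sum_congr rfl
      intro j hj
      have := DFunLike.congr_fun hab j
      rw [Finsupp.filter_apply_pos _ _ hj, Finsupp.filter_apply_pos _ _ hj] at this
      rw [this])
  -- all exponents agree on `J`
  obtain ⟨β, hβ⟩ : ∃ β, β ∈ g.support := by
    by_contra hcon
    push Not at hcon
    exact hg0 (support_eq_empty.mp (Finset.eq_empty_of_forall_notMem hcon))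
  have h2 : ∀ α ∈ g.support, ∀ j ∈ J, α j = β j := by
    intro α hα
    have h3 := h1 α hα β hβ
    rw [hsum, hsum] at h3
    have h4 := hind (fun j => (α j : ℤ) - β j) (by
      rw [← sub_eq_zero] at h3
      rw [← Finset.sum_sub_distrib] at h3
      rw [← h3]
      apply Finset.sum_congr rfl
      intro j _
      push_cast
      ring)
    intro j hj
    have := h4 j hj
    omega
  refine factor tor p hp hle (β.filter (fun j => j ∈ J)) ?_ I g hgp hg0 ?_ hI
  · intro j hj
    apply hJt
    by_contra hjJ
    exact hj (Finsupp.filter_apply_neg _ _ hjJ)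
  · intro α hα
    constructor
    · intro j
      by_cases hj : j ∈ J
      · rw [Finsupp.filter_apply_pos _ _ hj, h2 α hα j hj]
      · rw [Finsupp.filter_apply_neg _ _ hj]
        exact Nat.zero_le _
    · intro j hj
      rw [Finsupp.mem_support_iff, Finsupp.tsub_apply] at hj
      have hjs : j ∈ α.support := by
        rw [Finsupp.mem_support_iff]
        omega
      rcases Finset.mem_union.mp (hgA α hα hjs) with h | h
      · exact h
      · exfalso
        rw [Finsupp.filter_apply_pos _ _ h, h2 α hα j h] at hj
        omega

end Trs
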