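import Pool.Agent.Helper17.Trs.Defs

/-!
# Monomials, diagonal operators and minimal supports
-/

namespace Trs

open MvPolynomial

namespace H64

variable {n : ℕ}

/-- a linear operator which is diagonal on the monomials in `A` -/
lemma coeff_diag (A : Set (Fin n →₀ ℕ)) (L : Rg n →ₗ[ℂ] Rg n) (μ : (Fin n →₀ ℕ) → ℂ)
    (hL : ∀ α ∈ A, ∀ c, L (monomial α c) = μ α • monomial α c) (f : Rg n)
    (hf : ∀ α ∈ f.support, α ∈ A) (β : Fin n →₀ ℕ) : coeff β (L f) = μ β * coeff β f := by
  classical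
  conv_lhs => rw [f.as_sum]
  rw [map_sum, coeff_sum]
  rw [Finset.sum_congr rfl (fun α hα => by rw [hL α (hf α hα)])]
  simp only [coeff_smul, coeff_monomial, smul_eq_mul]
  by_cases hβ : β ∈ f.support
  · rw [Finset.sum_eq_single β]
    · simp
    · intro b _ hb; simp [hb]
    · intro h; exact absurd hβ h
  · rw [Finset.sum_eq_zero]
    · rw [notMem_support_iff.mp hβ, mul_zero]
    · intro α hα
      rw [if_neg, mul_zero]
      rintro rfl
      exact hβ hα

/-- the minimal support argument -/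
theorem exists_min (p : Ideal (Rg n)) {K : Type*} [DecidableEq K] (cl : (Fin n →₀ ℕ) → K)
    (A : Set (Fin n →₀ ℕ)) (f : Rg n) (hf : f ∈ p) (hf0 : f ≠ 0)
    (hA : ∀ α ∈ f.support, α ∈ A) :
    ∃ g ∈ p, g ≠ 0 ∧ (∀ α ∈ g.support, α ∈ A) ∧
      ∀ (L : Rg n →ₗ[ℂ] Rg n) (μ : (Fin n →₀ ℕ) → ℂ), (∀ x ∈ p, L x ∈ p) →
        (∀ α ∈ A, ∀ c, L (monomial α c) = μ α • monomial α c) →
        (∀ α ∈ A, ∀ β ∈ A, cl α = cl β → μ α = μ β) →
        ∀ α ∈ g.support, ∀ β ∈ g.support, μ α = μ β := by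
  classical
  -- choose `g` with the minimal number of classes
  have hex : ∃ N, ∃ g ∈ p, g ≠ 0 ∧ (∀ α ∈ g.support, α ∈ A) ∧ (g.support.image cl).card = N :=
    ⟨_, f, hf, hf0, hA, rfl⟩
  obtain ⟨g, hgp, hg0, hgA, hgN⟩ := Nat.find_spec hex
  refine ⟨g, hgp, hg0, hgA, ?_⟩
  intro L μ hLp hL hμ α₁ hα₁ β hβ
  -- compare with `β`
  set g' : Rg n := L g - μ β • g with hg'
  have hg'p : g' ∈ p := by
    refine p.sub_mem (hLp g hgp) ?_
    rw [MvPolynomial.smul_eq_C_mul]
    exact p.mul_mem_left _ hgp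
  have hco : ∀ α, coeff α g' = (μ α - μ β) * coeff α g := by
    intro α
    rw [hg', coeff_sub, coeff_diag A L μ hL g hgA, coeff_smul, smul_eq_mul, sub_mul]
  have hsub : g'.support ⊆ g.support := by
    intro α hα
    rw [mem_support_iff] at hα ⊢
    intro h
    exact hα (by rw [hco, h, mul_zero])
  by_contra hne
  have hg'0 : g' ≠ 0 := by
    intro h
    have h1 := hco α₁
    rw [h, coeff_zero] at h1
    rcases mul_eq_zero.mp h1.symm with h2 | h2
    · exact hne (sub_eq_zero.mp h2)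
    · exact (mem_support_iff.mp hα₁) h2
  have hlt : (g'.support.image cl).card < (g.support.image cl).card := by
    apply Finset.card_lt_card
    refine ⟨Finset.image_subset_image hsub, fun hcon => ?_⟩
    have h1 : cl β ∈ g.support.image cl := Finset.mem_image_of_mem _ hβ
    obtain ⟨α, hα, hαβ⟩ := Finset.mem_image.mp (hcon h1)
    have h2 : μ α = μ β := hμ α (hgA α (hsub hα)) β (hgA β hβ) hαβ
    exact (mem_support_iff.mp hα) (by rw [hco, h2, sub_self, zero_mul])
  rw [hgN] at hlt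
  exact Nat.find_min hex hlt ⟨g', hg'p, hg'0, fun α hα => hgA α (hsub hα), rfl⟩

/-- the support of a polynomial with few variables -/
lemma support_of_vars {I : Finset (Fin n)} {f : Rg n} (hf : f.vars ⊆ I) :
    ∀ α ∈ f.support, α.support ⊆ I := by
  intro α hα i hi
  exact hf ((mem_vars_iff_mem_support i).mpr ⟨α, hα, hi⟩)

lemma vars_of_support {I : Finset (Fin n)} {f : Rg n} (hf : ∀ α ∈ f.support, α.support ⊆ I) :
    f.vars ⊆ I := by
  intro i hi
  obtain ⟨α, hα, hi⟩ := (mem_vars_iff_mem_support i).mp hi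
  exact hf α hα hi

lemma ev_monomial_zero (tor : Fin n → Bool) (κ : Fin n →₀ ℕ)
    (hκ : ∀ j, κ j ≠ 0 → tor j = true) : ev tor 0 (monomial κ (1 : ℂ)) = 1 := by
  unfold ev
  rw [aeval_monomial, map_one, one_mul, Finsupp.prod]
  apply Finset.prod_eq_one
  intro j hj
  have := hκ j (Finsupp.mem_support_iff.mp hj)
  simp [this]

/-- factor out a monomial in the multiplicative coordinates -/
lemma factor (tor : Fin n → Bool) (p : Ideal (Rg n)) (hp : p.IsPrime)
    (hle : p ≤ RingHom.ker (ev tor 0)) (κ : Fin n →₀ ℕ) (hκ : ∀ j, κ j ≠ 0 → tor j = true)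
    (I : Finset (Fin n)) (f : Rg n) (hf : f ∈ p) (hf0 : f ≠ 0)
    (h : ∀ α ∈ f.support, κ ≤ α ∧ (α - κ).support ⊆ I) : ¬ Ind p I := by
  classical
  intro hI
  set g : Rg n := ∑ α ∈ f.support, monomial (α - κ) (coeff α f) with hg
  have h1 : monomial κ (1 : ℂ) * g = f := by
    rw [hg, Finset.mul_sum]
    conv_rhs => rw [f.as_sum]
    apply Finset.sum_congr rfl
    intro α hα
    rw [monomial_mul, one_mul, add_tsub_cancel_of_le (h α hα).1]
  have h2 : monomial κ (1 : ℂ) ∉ p := by
    intro hm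
    have := hle hm
    rw [RingHom.mem_ker, ev_monomial_zero tor κ hκ] at this
    exact one_ne_zero this
  have h3 : g ∈ p := by
    rw [← h1] at hf
    exact (hp.mem_or_mem hf).resolve_left h2
  have h4 : g.vars ⊆ I := by
    intro i hi
    rw [hg] at hi
    have hi' := vars_sum_subset _ _ hi
    obtain ⟨α, hα, hi''⟩ := Finset.mem_biUnion.mp hi'
    have h5 : coeff α f ≠ 0 := mem_support_iff.mp hα
    rw [vars_monomial h5] at hi''
    exact (h α hα).2 hi''
  have h5 := hI g h4 h3
  rw [h5, mul_zero] at h1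
  exact hf0 h1.symm

/-- the derivation on monomials -/
lemma dr_monomial (tor : Fin n → Bool) (u : Fin n → ℂ) (α : Fin n →₀ ℕ) (c : ℂ)
    (h : ∀ j, α j ≠ 0 → tor j = true ∨ u j = 0) :
    dr tor u (monomial α c) = (∑ j, (α j : ℂ) * u j) • monomial α c := by
  classical
  unfold dr
  rw [mkDerivation_monomial, Finsupp.sum]
  have h1 : ∀ j ∈ α.support, (monomial (α - Finsupp.single j 1) ((α j : ℕ) : ℂ) : Rg n) •
      (if tor j then C (u j) * X j else C (u j) : Rg n) = ((α j : ℂ) * u j) • monomial α 1 := by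
    intro j hj
    have hj' : α j ≠ 0 := Finsupp.mem_support_iff.mp hj
    rcases h j hj' with ht | hu
    · rw [if_pos ht, smul_eq_mul, X, C_mul_monomial, monomial_mul, mul_one, smul_monomial,
        smul_eq_mul, mul_one]
      congr 2
      apply tsub_add_cancel_of_le
      rw [Finsupp.single_le_iff]
      exact Nat.one_le_iff_ne_zero.mpr hj'
    · rw [hu]
      simp
  rw [Finset.sum_congr rfl h1, ← Finset.sum_smul, smul_smul, mul_comm, ← smul_smul,
    smul_monomial, smul_eq_mul, mul_one]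
  congr 1
  apply Finset.sum_subset (Finset.subset_univ _)
  intro j _ hj
  rw [Finsupp.notMem_support_iff.mp hj]
  simp

/-- the translation on monomials -/
lemma tr_monomial (tor : Fin n → Bool) (v : Fin n → ℂ) (α : Fin n →₀ ℕ) (c : ℂ)
    (h : ∀ j, α j ≠ 0 → tor j = true ∨ v j = 0) :
    tr tor v (monomial α c) = Complex.exp (∑ j, (α j : ℂ) * v j) • monomial α c := by
  classical
  unfold tr
  rw [aeval_monomial, Finsupp.prod]
  have h1 : ∀ j ∈ α.support, (if tor j then C (Complex.exp (v j)) * X j else X j + C (v j) : Rg n)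
      ^ α j = C (Complex.exp ((α j : ℂ) * v j)) * X j ^ α j := by
    intro j hj
    have hj' : α j ≠ 0 := Finsupp.mem_support_iff.mp hj
    rcases h j hj' with ht | hu
    · rw [if_pos ht, mul_pow, ← C_pow, ← Complex.exp_nat_mul]
    · rw [hu]
      by_cases ht : tor j = true
      · simp [ht]
      · simp [ht]
  rw [Finset.prod_congr rfl h1, Finset.prod_mul_distrib, ← map_prod, ← Complex.exp_sum]
  have h2 : ∑ j ∈ α.support, (α j : ℂ) * v j = ∑ j, (α j : ℂ) * v j := by
    apply Finset.sum_subset (Finset.subset_univ _)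
    intro j _ hj
    rw [Finsupp.notMem_support_iff.mp hj]
    simp
  rw [h2, MvPolynomial.smul_eq_C_mul, monomial_eq, Finsupp.prod, algebraMap_eq]
  ring

end H64

end Trs
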